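import Pool.Agent.Lib.MP_ef18bd_co.R78.Idx4
import Pool.Agent.Lib.MP_ef18bd_co.R78.Wj
import Pool.Agent.Lib.MP_ef18bd_co.P.Fir

/-!
# The components with two lists of values
-/

namespace EF18.P78

/-- the components and their values -/
noncomputable def CAGh : List CPc := [((4, 0x13100d1916071505020f0b08), [0, 0, 0, 6, 12]), ((4, 0x13110c1917061405030e0b09), [0, 0, 0, 6, 12]),
((4, 0x13100b191605011502010f08), [0, 0, 0, 0]), ((4, 0x13110a191704011403010e09), [0, 0, 0, 0]), ((6,
0x19130c17100b251f06231c05201b03140f09), [0, 0, 0, 0, 6, 12, 18])]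

/-- the components and their values -/
noncomputable def CBGh : List CPc := [((4, 0x13100d1916071505020f0b08), [0, 0, 0, 0, 0]), ((4, 0x13110c1917061405030e0b09), [0, 0, 0, 0, 0]), ((4,
0x13100b191605011502010f08), [0, 0, 0, 6]), ((4, 0x13110a191704011403010e09), [0, 0, 0, 6]), ((6,
0x19130c17100b251f06231c05201b03140f09), [0, 0, 0, 0, 0, 0, 0])]

/-- the components and their link ports -/
noncomputable def MLGh : List MPc := [((4, 0x13100d1916071505020f0b08), [1, 2, 4, 5, 6, 8, 9, 11]), ((4, 0x13110c1917061405030e0b09), [0, 1, 3, 4,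
7, 8, 10, 11]), ((4, 0x13100b191605011502010f08), [1, 4, 6, 8, 9, 11]), ((4, 0x13110a191704011403010e09), [0,
3, 7, 8, 10, 11]), ((6, 0x19130c17100b251f06231c05201b03140f09), [0, 1, 3, 4, 6, 8, 10, 11, 12, 14, 16, 17])]

/-- the closed pieces -/
noncomputable def PLGh : List (ℕ × ℕ) := []

theorem vokAGh : vok CAGh := by decide +kernel

theorem vokBGh : vok CBGh := by decide +kernel

theorem mclAGh : MLGh = mcl CAGh := by decide +kernel

theorem mclBGh : MLGh = mcl CBGh := by decide +kernel

theorem lenGh : CAGh.length = 5 := by decide +kernel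

theorem mkoGh : MLGh.all mkok = true := by decide +kernel

theorem wfpGh : PLGh.all wfp = true := by decide +kernel

theorem bdGh : (PLGh.all fun q => Nat.ble q.1 256) = true := by decide +kernel

/-- the start -/
noncomputable def QGhn : List (ℕ × ℕ) := []

theorem cGhn : Dj CAGh CBGh false PLGh (dnL QGhn) := dj_nil _ _ _ _

end EF18.P78
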