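import Pool.Agent.Lib.MP_ef18bd_co.R78G.Base
import Pool.Agent.Lib.MP_ef18bd_co.R78G.P0x0
import Pool.Agent.Lib.MP_ef18bd_co.R78G.P0x1
import Pool.Agent.Lib.MP_ef18bd_co.R78G.P0x2
import Pool.Agent.Lib.MP_ef18bd_co.R78G.P0x3
import Pool.Agent.Lib.MP_ef18bd_co.R78G.P0r0
import Pool.Agent.Lib.MP_ef18bd_co.R78G.P0k0

/-!
# Phase 0
-/

namespace EF18.P78

theorem aGh0 : ∀ i < 3027, Val (stD (dnL QGhn) SGh0) (prc BGh0 i) := by
  have j0 := ents_zeroF QGhn SGh0 BGh0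
  have h0 := j0
  have h1 := wGh0_0_0 h0
  have h2 := wGh0_0_1 h1
  have h3 := wGh0_0_2 h2
  have h4 := wGh0_0_3 h3
  have h5 := wGh0_0_4 h4
  have h6 := wGh0_0_5 h5
  have h7 := wGh0_0_6 h6
  have h8 := wGh0_0_7 h7
  have h9 := wGh0_0_8 h8
  have h10 := wGh0_0_9 h9
  have h11 := wGh0_0_10 h10
  have h12 := wGh0_0_11 h11
  have h13 := wGh0_0_12 h12
  have h14 := wGh0_0_13 h13
  have h15 := wGh0_0_14 h14
  have h16 := wGh0_0_15 h15
  have h17 := wGh0_0_16 h16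
  have h18 := wGh0_0_17 h17
  have h19 := wGh0_0_18 h18
  have h20 := wGh0_0_19 h19
  have h21 := wGh0_0_20 h20
  have h22 := wGh0_0_21 h21
  have h23 := wGh0_0_22 h22
  have h24 := wGh0_0_23 h23
  have h25 := wGh0_0_24 h24
  have h26 := wGh0_0_25 h25
  have h27 := wGh0_0_26 h26
  have h28 := wGh0_0_27 h27
  have h29 := wGh0_0_28 h28
  have h30 := wGh0_0_29 h29
  have h31 := wGh0_0_30 h30
  have h32 := wGh0_0_31 h31
  have h33 := wGh0_0_32 h32
  have h34 := wGh0_0_33 h33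
  have h35 := wGh0_0_34 h34
  have h36 := wGh0_0_35 h35
  have h37 := wGh0_0_36 h36
  have h38 := wGh0_0_37 h37
  have h39 := wGh0_0_38 h38
  have h40 := wGh0_0_39 h39
  have h41 := wGh0_1_0 h40
  have h42 := wGh0_1_1 h41
  have h43 := wGh0_1_2 h42
  have h44 := wGh0_1_3 h43
  have h45 := wGh0_1_4 h44
  have h46 := wGh0_1_5 h45
  have h47 := wGh0_1_6 h46
  have h48 := wGh0_1_7 h47
  have h49 := wGh0_1_8 h48
  have h50 := wGh0_1_9 h49
  have h51 := wGh0_1_10 h50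
  have h52 := wGh0_1_11 h51
  have h53 := wGh0_1_12 h52
  have h54 := wGh0_1_13 h53
  have h55 := wGh0_1_14 h54
  have h56 := wGh0_1_15 h55
  have h57 := wGh0_1_16 h56
  have h58 := wGh0_1_17 h57
  have h59 := wGh0_1_18 h58
  have h60 := wGh0_1_19 h59
  have h61 := wGh0_1_20 h60
  have h62 := wGh0_1_21 h61
  have h63 := wGh0_1_22 h62
  have h64 := wGh0_1_23 h63
  have h65 := wGh0_1_24 h64
  have h66 := wGh0_1_25 h65
  have h67 := wGh0_1_26 h66
  have h68 := wGh0_1_27 h67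
  have h69 := wGh0_1_28 h68
  have h70 := wGh0_1_29 h69
  have h71 := wGh0_1_30 h70
  have h72 := wGh0_1_31 h71
  have h73 := wGh0_1_32 h72
  have h74 := wGh0_1_33 h73
  have h75 := wGh0_1_34 h74
  have h76 := wGh0_2_0 h75
  have h77 := wGh0_2_1 h76
  have h78 := wGh0_2_2 h77
  have h79 := wGh0_2_3 h78
  have h80 := wGh0_2_4 h79
  have h81 := wGh0_2_5 h80
  have h82 := wGh0_2_6 h81
  have h83 := wGh0_2_7 h82
  have h84 := wGh0_2_8 h83
  have h85 := wGh0_2_9 h84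
  have h86 := wGh0_2_10 h85
  have h87 := wGh0_2_11 h86
  have h88 := wGh0_2_12 h87
  have h89 := wGh0_2_13 h88
  have h90 := wGh0_2_14 h89
  have h91 := wGh0_2_15 h90
  have h92 := wGh0_2_16 h91
  have h93 := wGh0_2_17 h92
  have h94 := wGh0_2_18 h93
  have h95 := wGh0_2_19 h94
  have h96 := wGh0_2_20 h95
  have h97 := wGh0_2_21 h96
  have h98 := wGh0_2_22 h97
  have h99 := wGh0_2_23 h98
  have h100 := wGh0_2_24 h99
  have h101 := wGh0_2_25 h100
  have h102 := wGh0_2_26 h101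
  have h103 := wGh0_2_27 h102
  have h104 := wGh0_2_28 h103
  have h105 := wGh0_2_29 h104
  have h106 := wGh0_2_30 h105
  have h107 := wGh0_2_31 h106
  have h108 := wGh0_2_32 h107
  have h109 := wGh0_3_0 h108
  have h110 := wGh0_3_1 h109
  have h111 := wGh0_3_2 h110
  have h112 := wGh0_3_3 h111
  have h113 := wGh0_3_4 h112
  have h114 := wGh0_3_5 h113
  have h115 := wGh0_3_6 h114
  have h116 := wGh0_3_7 h115
  have h117 := wGh0_3_8 h116
  have h118 := wGh0_3_9 h117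
  have h119 := wGh0_3_10 h118
  have h120 := wGh0_3_11 h119
  have h121 := wGh0_3_12 h120
  have h122 := wGh0_3_13 h121
  have h123 := wGh0_3_14 h122
  exact h123

theorem bGh0 : RtI (okB 2 false) (stD (dnL QGhn) SGh0) RBGh0 738 := by
  have h0 := rtI_zero (okB 2 false) (stD (dnL QGhn) SGh0) RBGh0
  have h1 := uGh0 aGh0 h0 oGh0_0_0 (show 0 + 25 = 25 from rfl)
  have h2 := uGh0 aGh0 h1 oGh0_0_1 (show 25 + 25 = 50 from rfl)
  have h3 := uGh0 aGh0 h2 oGh0_0_2 (show 50 + 25 = 75 from rfl)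
  have h4 := uGh0 aGh0 h3 oGh0_0_3 (show 75 + 25 = 100 from rfl)
  have h5 := uGh0 aGh0 h4 oGh0_0_4 (show 100 + 25 = 125 from rfl)
  have h6 := uGh0 aGh0 h5 oGh0_0_5 (show 125 + 25 = 150 from rfl)
  have h7 := uGh0 aGh0 h6 oGh0_0_6 (show 150 + 25 = 175 from rfl)
  have h8 := uGh0 aGh0 h7 oGh0_0_7 (show 175 + 25 = 200 from rfl)
  have h9 := uGh0 aGh0 h8 oGh0_0_8 (show 200 + 25 = 225 from rfl)
  have h10 := uGh0 aGh0 h9 oGh0_0_9 (show 225 + 25 = 250 from rfl)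
  have h11 := uGh0 aGh0 h10 oGh0_0_10 (show 250 + 25 = 275 from rfl)
  have h12 := uGh0 aGh0 h11 oGh0_0_11 (show 275 + 25 = 300 from rfl)
  have h13 := uGh0 aGh0 h12 oGh0_0_12 (show 300 + 25 = 325 from rfl)
  have h14 := uGh0 aGh0 h13 oGh0_0_13 (show 325 + 25 = 350 from rfl)
  have h15 := uGh0 aGh0 h14 oGh0_0_14 (show 350 + 25 = 375 from rfl)
  have h16 := uGh0 aGh0 h15 oGh0_0_15 (show 375 + 25 = 400 from rfl)
  have h17 := uGh0 aGh0 h16 oGh0_0_16 (show 400 + 25 = 425 from rfl)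
  have h18 := uGh0 aGh0 h17 oGh0_0_17 (show 425 + 25 = 450 from rfl)
  have h19 := uGh0 aGh0 h18 oGh0_0_18 (show 450 + 25 = 475 from rfl)
  have h20 := uGh0 aGh0 h19 oGh0_0_19 (show 475 + 25 = 500 from rfl)
  have h21 := uGh0 aGh0 h20 oGh0_0_20 (show 500 + 25 = 525 from rfl)
  have h22 := uGh0 aGh0 h21 oGh0_0_21 (show 525 + 25 = 550 from rfl)
  have h23 := uGh0 aGh0 h22 oGh0_0_22 (show 550 + 25 = 575 from rfl)
  have h24 := uGh0 aGh0 h23 oGh0_0_23 (show 575 + 25 = 600 from rfl)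
  have h25 := uGh0 aGh0 h24 oGh0_0_24 (show 600 + 25 = 625 from rfl)
  have h26 := uGh0 aGh0 h25 oGh0_0_25 (show 625 + 25 = 650 from rfl)
  have h27 := uGh0 aGh0 h26 oGh0_0_26 (show 650 + 25 = 675 from rfl)
  have h28 := uGh0 aGh0 h27 oGh0_0_27 (show 675 + 25 = 700 from rfl)
  have h29 := uGh0 aGh0 h28 oGh0_0_28 (show 700 + 25 = 725 from rfl)
  have h30 := uGh0 aGh0 h29 oGh0_0_29 (show 725 + 13 = 738 from rfl)
  exact h30

theorem tGh0 : (TGh0.all okJ) = true := by decide +kernel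

theorem pGh0_0 : CkP QGhn (4, 0x13100d1916071505020f0b08)
    [4, 3, 2, 1, 0] 16 := by
  have h0 := ckP_zero QGhn (4, 0x13100d1916071505020f0b08)
    [4, 3, 2, 1, 0]
  have h1 := ckP_step (k := 16) h0 kGh0_0c0 rfl
  exact h1

theorem pGh0_1 : CkP QGhn (4, 0x13110c1917061405030e0b09)
    [4, 3, 2, 1, 0] 16 := by
  have h0 := ckP_zero QGhn (4, 0x13110c1917061405030e0b09)
    [4, 3, 2, 1, 0]
  have h1 := ckP_step (k := 16) h0 kGh0_1c0 rfl
  exact h1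

theorem pGh0_2 : CkP QGhn (4, 0x13100b191605011502010f08)
    [3, 2, 1, 0] 8 := by
  have h0 := ckP_zero QGhn (4, 0x13100b191605011502010f08)
    [3, 2, 1, 0]
  have h1 := ckP_step (k := 8) h0 kGh0_2c0 rfl
  exact h1

theorem pGh0_3 : CkP QGhn (4, 0x13110a191704011403010e09)
    [3, 2, 1, 0] 8 := by
  have h0 := ckP_zero QGhn (4, 0x13110a191704011403010e09)
    [3, 2, 1, 0]
  have h1 := ckP_step (k := 8) h0 kGh0_3c0 rfl
  exact h1

theorem pGh0_4 : CkP QGhn (6, 0x19130c17100b251f06231c05201b03140f09)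
    [6, 5, 4, 3, 2, 1, 0] 64 := by
  have h0 := ckP_zero QGhn (6, 0x19130c17100b251f06231c05201b03140f09)
    [6, 5, 4, 3, 2, 1, 0]
  have h1 := ckP_step (k := 64) h0 kGh0_4c0 rfl
  exact h1

theorem kGh0 : PpI QGhn 6 TGh0 CAGh CBGh 5 := by
  have h0 := ppI_zero QGhn 6 TGh0 CAGh CBGh
  have h1 := ppI_stepV (k' := 1) (q := (4, 0x13100d1916071505020f0b08)) h0 rfl kGh0_0r pGh0_0 kGh0_0m rfl
  have h2 := ppI_stepV (k' := 2) (q := (4, 0x13110c1917061405030e0b09)) h1 rfl kGh0_1r pGh0_1 kGh0_1m rfl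
  have h3 := ppI_stepV (k' := 3) (q := (4, 0x13100b191605011502010f08)) h2 rfl kGh0_2r pGh0_2 kGh0_2m rfl
  have h4 := ppI_stepV (k' := 4) (q := (4, 0x13110a191704011403010e09)) h3 rfl kGh0_3r pGh0_3 kGh0_3m rfl
  have h5 := ppI_stepV (k' := 5) (q := (6, 0x19130c17100b251f06231c05201b03140f09)) h4 rfl kGh0_4r pGh0_4 kGh0_4m rfl
  exact h5

theorem zGh0 : (!false || allK QGhn (fun _ => true) (nzq CBGh)
  0) = true := by decide +kernel

theorem mGh0A : (Nat.ble 2 2 || memI QGhn 0 1 257) = true := by decide +kernel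

theorem mGh0B : (Nat.ble 1 2 || memI QGhn 0 1 1) = true := by decide +kernel

/-- **the phase 0** -/
theorem cGh0 : Dj CAGh CBGh false PLGh (dnL QGh0) :=
  Dj.rawP vokAGh vokBGh mclAGh mclBGh mkoGh wfpGh cGhn mGh0A mGh0B (by norm_num) tGh0 kGh0 lenGh zGh0 bGh0

end EF18.P78
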