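import Pool.Agent.Lib.MP_ef18bd_co.R78G.P1

/-!
# Phase 1: closed patterns
-/

namespace EF18.P78

set_option linter.defProp false

def jGh1_0 : j0F QGh0 BGh1 3 0
  0x8b4000b84000b780 = true := by
  decide +kernel

end EF18.P78
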