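import Pool.Agent.Lib.MP_ef18bd_co.R78G.P1

/-!
# Phase 1: the states of the components
-/

namespace EF18.P78

set_option linter.defProp false

def kGh1_0r : rwV 6 TGh1 (gE CAGh 0) (gE CBGh 0)
  [4, 3, 2, 1, 0] = true := by
  decide +kernel

def kGh1_0m : lnV (4, 0x13100d1916071505020f0b08) 16 = true := by
  decide +kernel

def kGh1_0c0 : ckV QGh0 (4, 0x13100d1916071505020f0b08) [4, 3, 2, 1, 0] 0 16
  [0, 0, 0, 0, 0, 0, 0, 0, 0, 0, 0, 0, 0, 0, 0, 0]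
  0 = true := by
  decide +kernel

def kGh1_1r : rwV 6 TGh1 (gE CAGh 1) (gE CBGh 1)
  [4, 3, 2, 1, 0] = true := by
  decide +kernel

def kGh1_1m : lnV (4, 0x13110c1917061405030e0b09) 16 = true := by
  decide +kernel

def kGh1_1c0 : ckV QGh0 (4, 0x13110c1917061405030e0b09) [4, 3, 2, 1, 0] 0 16
  [0, 0, 0, 0, 0, 0, 0, 0, 0, 0, 0, 0, 0, 0, 0, 0]
  0 = true := by
  decide +kernel

def kGh1_2r : rwV 6 TGh1 (gE CAGh 2) (gE CBGh 2)
  [3, 2, 1, 0] = true := by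
  decide +kernel

def kGh1_2m : lnV (4, 0x13100b191605011502010f08) 8 = true := by
  decide +kernel

def kGh1_2c0 : ckV QGh0 (4, 0x13100b191605011502010f08) [3, 2, 1, 0] 0 8
  [0, 0, 0, 0, 0, 0, 0, 0]
  0 = true := by
  decide +kernel

def kGh1_3r : rwV 6 TGh1 (gE CAGh 3) (gE CBGh 3)
  [3, 2, 1, 0] = true := by
  decide +kernel

def kGh1_3m : lnV (4, 0x13110a191704011403010e09) 8 = true := by
  decide +kernel

def kGh1_3c0 : ckV QGh0 (4, 0x13110a191704011403010e09) [3, 2, 1, 0] 0 8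
  [0, 0, 0, 0, 0, 0, 0, 0]
  0 = true := by
  decide +kernel

def kGh1_4r : rwV 6 TGh1 (gE CAGh 4) (gE CBGh 4)
  [6, 5, 4, 3, 2, 1, 0] = true := by
  decide +kernel

def kGh1_4m : lnV (6, 0x19130c17100b251f06231c05201b03140f09) 64 = true := by
  decide +kernel

def kGh1_4c0 : ckV QGh0 (6, 0x19130c17100b251f06231c05201b03140f09) [6, 5, 4, 3, 2, 1, 0] 0 64
  [0, 0, 0, 0, 0, 0, 0, 0, 0, 0, 0, 0, 0, 0, 0, 0, 0, 0, 0, 0, 0, 0, 0, 0, 0, 0, 0, 0, 0, 0, 0, 0, 0, 0, 0, 0,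
0, 0, 0, 0, 0, 0, 0, 0, 0, 0, 0, 0, 0, 0, 0, 0, 0, 0, 0, 0, 0, 0, 0, 0, 0, 0, 0, 0]
  0 = true := by
  decide +kernel

end EF18.P78
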