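import Pool.Agent.Lib.MP_ef18bd_co.R78G.C0
import Pool.Agent.Lib.MP_ef18bd_co.R78G.P1x0
import Pool.Agent.Lib.MP_ef18bd_co.R78G.P1x1
import Pool.Agent.Lib.MP_ef18bd_co.R78G.P1j0
import Pool.Agent.Lib.MP_ef18bd_co.R78G.P1r0
import Pool.Agent.Lib.MP_ef18bd_co.R78G.P1k0

/-!
# Phase 1
-/

namespace EF18.P78

theorem aGh1 : ∀ i < 709, Val (stD (dnL QGh0) SGh1) (prc BGh1 i) := by
  have j0 := ents_zeroF QGh0 SGh1 BGh1
  have j1 := ents_dnF (k := 3) j0 jGh1_0 rfl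
  have h0 := j1
  have h1 := wGh1_0_0 h0
  have h2 := wGh1_0_1 h1
  have h3 := wGh1_0_2 h2
  have h4 := wGh1_0_3 h3
  have h5 := wGh1_0_4 h4
  have h6 := wGh1_0_5 h5
  have h7 := wGh1_0_6 h6
  have h8 := wGh1_0_7 h7
  have h9 := wGh1_0_8 h8
  have h10 := wGh1_0_9 h9
  have h11 := wGh1_0_10 h10
  have h12 := wGh1_0_11 h11
  have h13 := wGh1_0_12 h12
  have h14 := wGh1_0_13 h13
  have h15 := wGh1_0_14 h14
  have h16 := wGh1_0_15 h15
  have h17 := wGh1_0_16 h16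
  have h18 := wGh1_0_17 h17
  have h19 := wGh1_1_0 h18
  have h20 := wGh1_1_1 h19
  have h21 := wGh1_1_2 h20
  have h22 := wGh1_1_3 h21
  have h23 := wGh1_1_4 h22
  have h24 := wGh1_1_5 h23
  have h25 := wGh1_1_6 h24
  have h26 := wGh1_1_7 h25
  have h27 := wGh1_1_8 h26
  have h28 := wGh1_1_9 h27
  have h29 := wGh1_1_10 h28
  exact h29

theorem bGh1 : RtI (okB 1 false) (stD (dnL QGh0) SGh1) RBGh1 994 := by
  have h0 := rtI_zero (okB 1 false) (stD (dnL QGh0) SGh1) RBGh1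
  have h1 := uGh1 aGh1 h0 oGh1_0_0 (show 0 + 25 = 25 from rfl)
  have h2 := uGh1 aGh1 h1 oGh1_0_1 (show 25 + 25 = 50 from rfl)
  have h3 := uGh1 aGh1 h2 oGh1_0_2 (show 50 + 25 = 75 from rfl)
  have h4 := uGh1 aGh1 h3 oGh1_0_3 (show 75 + 25 = 100 from rfl)
  have h5 := uGh1 aGh1 h4 oGh1_0_4 (show 100 + 25 = 125 from rfl)
  have h6 := uGh1 aGh1 h5 oGh1_0_5 (show 125 + 25 = 150 from rfl)
  have h7 := uGh1 aGh1 h6 oGh1_0_6 (show 150 + 25 = 175 from rfl)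
  have h8 := uGh1 aGh1 h7 oGh1_0_7 (show 175 + 25 = 200 from rfl)
  have h9 := uGh1 aGh1 h8 oGh1_0_8 (show 200 + 25 = 225 from rfl)
  have h10 := uGh1 aGh1 h9 oGh1_0_9 (show 225 + 25 = 250 from rfl)
  have h11 := uGh1 aGh1 h10 oGh1_0_10 (show 250 + 25 = 275 from rfl)
  have h12 := uGh1 aGh1 h11 oGh1_0_11 (show 275 + 25 = 300 from rfl)
  have h13 := uGh1 aGh1 h12 oGh1_0_12 (show 300 + 25 = 325 from rfl)
  have h14 := uGh1 aGh1 h13 oGh1_0_13 (show 325 + 25 = 350 from rfl)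
  have h15 := uGh1 aGh1 h14 oGh1_0_14 (show 350 + 25 = 375 from rfl)
  have h16 := uGh1 aGh1 h15 oGh1_0_15 (show 375 + 25 = 400 from rfl)
  have h17 := uGh1 aGh1 h16 oGh1_0_16 (show 400 + 25 = 425 from rfl)
  have h18 := uGh1 aGh1 h17 oGh1_0_17 (show 425 + 25 = 450 from rfl)
  have h19 := uGh1 aGh1 h18 oGh1_0_18 (show 450 + 25 = 475 from rfl)
  have h20 := uGh1 aGh1 h19 oGh1_0_19 (show 475 + 25 = 500 from rfl)
  have h21 := uGh1 aGh1 h20 oGh1_0_20 (show 500 + 25 = 525 from rfl)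
  have h22 := uGh1 aGh1 h21 oGh1_0_21 (show 525 + 25 = 550 from rfl)
  have h23 := uGh1 aGh1 h22 oGh1_0_22 (show 550 + 25 = 575 from rfl)
  have h24 := uGh1 aGh1 h23 oGh1_0_23 (show 575 + 25 = 600 from rfl)
  have h25 := uGh1 aGh1 h24 oGh1_0_24 (show 600 + 25 = 625 from rfl)
  have h26 := uGh1 aGh1 h25 oGh1_0_25 (show 625 + 25 = 650 from rfl)
  have h27 := uGh1 aGh1 h26 oGh1_0_26 (show 650 + 25 = 675 from rfl)
  have h28 := uGh1 aGh1 h27 oGh1_0_27 (show 675 + 25 = 700 from rfl)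
  have h29 := uGh1 aGh1 h28 oGh1_0_28 (show 700 + 25 = 725 from rfl)
  have h30 := uGh1 aGh1 h29 oGh1_0_29 (show 725 + 25 = 750 from rfl)
  have h31 := uGh1 aGh1 h30 oGh1_0_30 (show 750 + 25 = 775 from rfl)
  have h32 := uGh1 aGh1 h31 oGh1_0_31 (show 775 + 25 = 800 from rfl)
  have h33 := uGh1 aGh1 h32 oGh1_0_32 (show 800 + 25 = 825 from rfl)
  have h34 := uGh1 aGh1 h33 oGh1_0_33 (show 825 + 25 = 850 from rfl)
  have h35 := uGh1 aGh1 h34 oGh1_0_34 (show 850 + 25 = 875 from rfl)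
  have h36 := uGh1 aGh1 h35 oGh1_0_35 (show 875 + 25 = 900 from rfl)
  have h37 := uGh1 aGh1 h36 oGh1_0_36 (show 900 + 25 = 925 from rfl)
  have h38 := uGh1 aGh1 h37 oGh1_0_37 (show 925 + 25 = 950 from rfl)
  have h39 := uGh1 aGh1 h38 oGh1_0_38 (show 950 + 25 = 975 from rfl)
  have h40 := uGh1 aGh1 h39 oGh1_0_39 (show 975 + 19 = 994 from rfl)
  exact h40

theorem tGh1 : (TGh1.all okJ) = true := by decide +kernel

theorem pGh1_0 : CkP QGh0 (4, 0x13100d1916071505020f0b08)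
    [4, 3, 2, 1, 0] 16 := by
  have h0 := ckP_zero QGh0 (4, 0x13100d1916071505020f0b08)
    [4, 3, 2, 1, 0]
  have h1 := ckP_step (k := 16) h0 kGh1_0c0 rfl
  exact h1

theorem pGh1_1 : CkP QGh0 (4, 0x13110c1917061405030e0b09)
    [4, 3, 2, 1, 0] 16 := by
  have h0 := ckP_zero QGh0 (4, 0x13110c1917061405030e0b09)
    [4, 3, 2, 1, 0]
  have h1 := ckP_step (k := 16) h0 kGh1_1c0 rfl
  exact h1

theorem pGh1_2 : CkP QGh0 (4, 0x13100b191605011502010f08)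
    [3, 2, 1, 0] 8 := by
  have h0 := ckP_zero QGh0 (4, 0x13100b191605011502010f08)
    [3, 2, 1, 0]
  have h1 := ckP_step (k := 8) h0 kGh1_2c0 rfl
  exact h1

theorem pGh1_3 : CkP QGh0 (4, 0x13110a191704011403010e09)
    [3, 2, 1, 0] 8 := by
  have h0 := ckP_zero QGh0 (4, 0x13110a191704011403010e09)
    [3, 2, 1, 0]
  have h1 := ckP_step (k := 8) h0 kGh1_3c0 rfl
  exact h1

theorem pGh1_4 : CkP QGh0 (6, 0x19130c17100b251f06231c05201b03140f09)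
    [6, 5, 4, 3, 2, 1, 0] 64 := by
  have h0 := ckP_zero QGh0 (6, 0x19130c17100b251f06231c05201b03140f09)
    [6, 5, 4, 3, 2, 1, 0]
  have h1 := ckP_step (k := 64) h0 kGh1_4c0 rfl
  exact h1

theorem kGh1 : PpI QGh0 6 TGh1 CAGh CBGh 5 := by
  have h0 := ppI_zero QGh0 6 TGh1 CAGh CBGh
  have h1 := ppI_stepV (k' := 1) (q := (4, 0x13100d1916071505020f0b08)) h0 rfl kGh1_0r pGh1_0 kGh1_0m rfl
  have h2 := ppI_stepV (k' := 2) (q := (4, 0x13110c1917061405030e0b09)) h1 rfl kGh1_1r pGh1_1 kGh1_1m rfl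
  have h3 := ppI_stepV (k' := 3) (q := (4, 0x13100b191605011502010f08)) h2 rfl kGh1_2r pGh1_2 kGh1_2m rfl
  have h4 := ppI_stepV (k' := 4) (q := (4, 0x13110a191704011403010e09)) h3 rfl kGh1_3r pGh1_3 kGh1_3m rfl
  have h5 := ppI_stepV (k' := 5) (q := (6, 0x19130c17100b251f06231c05201b03140f09)) h4 rfl kGh1_4r pGh1_4 kGh1_4m rfl
  exact h5

theorem zGh1 : (!false || allK QGh0 (fun _ => true) (nzq CBGh)
  0) = true := by decide +kernel

theorem mGh1A : (Nat.ble 2 1 || memI QGh0 0 1 257) = true := by decide +kernel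

theorem mGh1B : (Nat.ble 1 1 || memI QGh0 0 1 1) = true := by decide +kernel

/-- **the phase 1** -/
theorem cGh1 : Dj CAGh CBGh false PLGh (dnL QGh1) :=
  Dj.rawP vokAGh vokBGh mclAGh mclBGh mkoGh wfpGh cGh0 mGh1A mGh1B (by norm_num) tGh1 kGh1 lenGh zGh1 bGh1

end EF18.P78
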