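import Pool.Agent.Lib.MP_ef18bd_co.R78G.P2

/-!
# Phase 2: closed patterns
-/

namespace EF18.P78

set_option linter.defProp false

def jGh2_0 : j0F QGh1 BGh2 94 0
  0x2a800029c000008000f84000f6c000f68000f28000f24000ea0000e6c000e4c000e3c000e30000e2c000e24000e18000e10000e0c000e00000dd0000d84000d68000d64000d60000d5c000cfc000cf8000cf0000cd8000cbc000cb0000ca4000c68000c44000c3c000c1c000c08000c04000c00000bf4000be4000be0000bd0000bac000ba4000ba0000b98000b74000b70000b64000b60000b50000b4c000b48000b3c000b38000b1c000b14000b04000b00000ae8000ae0000adc000ad8000ad4000ad0000acc000ac4000ac0000ab0000aac000a8c000a88000a84000a80000a7c000a78000a74000a70000a6c000a68000a64000a60000a5c000a58000a54000a4c0009fc0009f80009f40009f00009ec0009e8000b741 = true := by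
  decide +kernel

end EF18.P78
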