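import Pool.Agent.Lib.MP_ef18bd_co.R78G.C1
import Pool.Agent.Lib.MP_ef18bd_co.R78G.P2x0
import Pool.Agent.Lib.MP_ef18bd_co.R78G.P2j0
import Pool.Agent.Lib.MP_ef18bd_co.R78G.P2r0
import Pool.Agent.Lib.MP_ef18bd_co.R78G.P2k0

/-!
# Phase 2
-/

namespace EF18.P78

theorem aGh2 : ∀ i < 430, Val (stD (dnL QGh1) SGh2) (prc BGh2 i) := by
  have j0 := ents_zeroF QGh1 SGh2 BGh2
  have j1 := ents_dnF (k := 94) j0 jGh2_0 rfl
  have h0 := j1
  have h1 := wGh2_0_0 h0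
  have h2 := wGh2_0_1 h1
  have h3 := wGh2_0_2 h2
  have h4 := wGh2_0_3 h3
  have h5 := wGh2_0_4 h4
  have h6 := wGh2_0_5 h5
  have h7 := wGh2_0_6 h6
  have h8 := wGh2_0_7 h7
  have h9 := wGh2_0_8 h8
  have h10 := wGh2_0_9 h9
  have h11 := wGh2_0_10 h10
  have h12 := wGh2_0_11 h11
  have h13 := wGh2_0_12 h12
  have h14 := wGh2_0_13 h13
  exact h14

theorem bGh2 : RtI (okB 1 false) (stD (dnL QGh1) SGh2) RBGh2 304 := by
  have h0 := rtI_zero (okB 1 false) (stD (dnL QGh1) SGh2) RBGh2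
  have h1 := uGh2 aGh2 h0 oGh2_0_0 (show 0 + 25 = 25 from rfl)
  have h2 := uGh2 aGh2 h1 oGh2_0_1 (show 25 + 25 = 50 from rfl)
  have h3 := uGh2 aGh2 h2 oGh2_0_2 (show 50 + 25 = 75 from rfl)
  have h4 := uGh2 aGh2 h3 oGh2_0_3 (show 75 + 25 = 100 from rfl)
  have h5 := uGh2 aGh2 h4 oGh2_0_4 (show 100 + 25 = 125 from rfl)
  have h6 := uGh2 aGh2 h5 oGh2_0_5 (show 125 + 25 = 150 from rfl)
  have h7 := uGh2 aGh2 h6 oGh2_0_6 (show 150 + 25 = 175 from rfl)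
  have h8 := uGh2 aGh2 h7 oGh2_0_7 (show 175 + 25 = 200 from rfl)
  have h9 := uGh2 aGh2 h8 oGh2_0_8 (show 200 + 25 = 225 from rfl)
  have h10 := uGh2 aGh2 h9 oGh2_0_9 (show 225 + 25 = 250 from rfl)
  have h11 := uGh2 aGh2 h10 oGh2_0_10 (show 250 + 25 = 275 from rfl)
  have h12 := uGh2 aGh2 h11 oGh2_0_11 (show 275 + 25 = 300 from rfl)
  have h13 := uGh2 aGh2 h12 oGh2_0_12 (show 300 + 4 = 304 from rfl)
  exact h13

theorem tGh2 : (TGh2.all okJ) = true := by decide +kernel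

theorem pGh2_0 : CkP QGh1 (4, 0x13100d1916071505020f0b08)
    [4, 0, 0, 0, 0] 16 := by
  have h0 := ckP_zero QGh1 (4, 0x13100d1916071505020f0b08)
    [4, 0, 0, 0, 0]
  have h1 := ckP_step (k := 16) h0 kGh2_0c0 rfl
  exact h1

theorem pGh2_1 : CkP QGh1 (4, 0x13110c1917061405030e0b09)
    [4, 3, 0, 0, 0] 16 := by
  have h0 := ckP_zero QGh1 (4, 0x13110c1917061405030e0b09)
    [4, 3, 0, 0, 0]
  have h1 := ckP_step (k := 16) h0 kGh2_1c0 rfl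
  exact h1

theorem pGh2_2 : CkP QGh1 (4, 0x13100b191605011502010f08)
    [3, 2, 1, 0] 8 := by
  have h0 := ckP_zero QGh1 (4, 0x13100b191605011502010f08)
    [3, 2, 1, 0]
  have h1 := ckP_step (k := 8) h0 kGh2_2c0 rfl
  exact h1

theorem pGh2_3 : CkP QGh1 (4, 0x13110a191704011403010e09)
    [3, 2, 1, 0] 8 := by
  have h0 := ckP_zero QGh1 (4, 0x13110a191704011403010e09)
    [3, 2, 1, 0]
  have h1 := ckP_step (k := 8) h0 kGh2_3c0 rfl
  exact h1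

theorem pGh2_4 : CkP QGh1 (6, 0x19130c17100b251f06231c05201b03140f09)
    [3, 5, 4, 0, 0, 0, 0] 64 := by
  have h0 := ckP_zero QGh1 (6, 0x19130c17100b251f06231c05201b03140f09)
    [3, 5, 4, 0, 0, 0, 0]
  have h1 := ckP_step (k := 63) h0 kGh2_4c0 rfl
  have h2 := ckP_step (k := 64) h1 kGh2_4c1 rfl
  exact h2

theorem kGh2 : PpI QGh1 6 TGh2 CAGh CBGh 5 := by
  have h0 := ppI_zero QGh1 6 TGh2 CAGh CBGh
  have h1 := ppI_stepV (k' := 1) (q := (4, 0x13100d1916071505020f0b08)) h0 rfl kGh2_0r pGh2_0 kGh2_0m rfl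
  have h2 := ppI_stepV (k' := 2) (q := (4, 0x13110c1917061405030e0b09)) h1 rfl kGh2_1r pGh2_1 kGh2_1m rfl
  have h3 := ppI_stepV (k' := 3) (q := (4, 0x13100b191605011502010f08)) h2 rfl kGh2_2r pGh2_2 kGh2_2m rfl
  have h4 := ppI_stepV (k' := 4) (q := (4, 0x13110a191704011403010e09)) h3 rfl kGh2_3r pGh2_3 kGh2_3m rfl
  have h5 := ppI_stepV (k' := 5) (q := (6, 0x19130c17100b251f06231c05201b03140f09)) h4 rfl kGh2_4r pGh2_4 kGh2_4m rfl
  exact h5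

theorem zGh2 : (!false || allK QGh1 (fun _ => true) (nzq CBGh)
  0) = true := by decide +kernel

theorem mGh2A : (Nat.ble 2 1 || memI QGh1 1 1 257) = true := by decide +kernel

theorem mGh2B : (Nat.ble 1 1 || memI QGh1 0 1 1) = true := by decide +kernel

/-- **the phase 2** -/
theorem cGh2 : Dj CAGh CBGh false PLGh (dnL QGh2) :=
  Dj.rawP vokAGh vokBGh mclAGh mclBGh mkoGh wfpGh cGh1 mGh2A mGh2B (by norm_num) tGh2 kGh2 lenGh zGh2 bGh2

end EF18.P78
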