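import Pool.Agent.Lib.MP_ef18bd_co.R78G.P3

/-!
# Phase 3: closed patterns
-/

namespace EF18.P78

set_option linter.defProp false

def jGh3_0 : j0F QGh2 BGh3 100 0
  0xc5810027000026800025c00025800025400025000024c000248000240000234000c10100218000be4100bc8100b9c100b98100b94100b881001c00001b80001b40001b00001a80001a40001a0000198000194000b58100b48100b40100b34100b3010017c000178000174000b28100b24100b20100160000b00100afc100af8100af4100af0100aec10015c00015800015400015000014c000ae4100144000ad810013c000ac8100138000ab4100ab0100aac100aa8100130000aa4100aa0100a9c10012c000a94100a90100a64100128000a50100a4c100a48100a44100a40100a3c10011c000118000a38100a34100a30100a2c100a28100114000110000a2410010c000108000a20100104000a1c100100000a18100a14100a10100a0c100a08100a041009fc100b742 = true := by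
  decide +kernel

def jGh3_1 : j0F QGh2 BGh3 60 100
  0x380000000002b01002901004b4000e8c100e88100438000e5010040c0004040004000003fc0003f80003e4000e10100e0c100e08100dfc100df81003c00003bc0003ac000dec1003a4000ddc100dd8100da8100394000388000370000d8410035c000d7410035000034c000348000344000328000324000d4c1002f40002d8000d0c100d08100d041002cc000ce8100ce41002c8000cc4100cb81002c0000cb41002bc0002b8000cac100c98100c941002840 = true := by
  decide +kernel

end EF18.P78
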