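import Pool.Agent.Lib.MP_ef18bd_co.R78G.C2
import Pool.Agent.Lib.MP_ef18bd_co.R78G.P3x0
import Pool.Agent.Lib.MP_ef18bd_co.R78G.P3j0
import Pool.Agent.Lib.MP_ef18bd_co.R78G.P3r0
import Pool.Agent.Lib.MP_ef18bd_co.R78G.P3k0

/-!
# Phase 3
-/

namespace EF18.P78

theorem aGh3 : ∀ i < 432, Val (stD (dnL QGh2) SGh3) (prc BGh3 i) := by
  have j0 := ents_zeroF QGh2 SGh3 BGh3
  have j1 := ents_dnF (k := 100) j0 jGh3_0 rfl
  have j2 := ents_dnF (k := 160) j1 jGh3_1 rfl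
  have h0 := j2
  have h1 := wGh3_0_0 h0
  have h2 := wGh3_0_1 h1
  have h3 := wGh3_0_2 h2
  have h4 := wGh3_0_3 h3
  have h5 := wGh3_0_4 h4
  have h6 := wGh3_0_5 h5
  have h7 := wGh3_0_6 h6
  have h8 := wGh3_0_7 h7
  have h9 := wGh3_0_8 h8
  have h10 := wGh3_0_9 h9
  have h11 := wGh3_0_10 h10
  exact h11

theorem bGh3 : RtI (okB 1 false) (stD (dnL QGh2) SGh3) RBGh3 188 := by
  have h0 := rtI_zero (okB 1 false) (stD (dnL QGh2) SGh3) RBGh3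
  have h1 := uGh3 aGh3 h0 oGh3_0_0 (show 0 + 25 = 25 from rfl)
  have h2 := uGh3 aGh3 h1 oGh3_0_1 (show 25 + 25 = 50 from rfl)
  have h3 := uGh3 aGh3 h2 oGh3_0_2 (show 50 + 25 = 75 from rfl)
  have h4 := uGh3 aGh3 h3 oGh3_0_3 (show 75 + 25 = 100 from rfl)
  have h5 := uGh3 aGh3 h4 oGh3_0_4 (show 100 + 25 = 125 from rfl)
  have h6 := uGh3 aGh3 h5 oGh3_0_5 (show 125 + 25 = 150 from rfl)
  have h7 := uGh3 aGh3 h6 oGh3_0_6 (show 150 + 25 = 175 from rfl)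
  have h8 := uGh3 aGh3 h7 oGh3_0_7 (show 175 + 13 = 188 from rfl)
  exact h8

theorem tGh3 : (TGh3.all okJ) = true := by decide +kernel

theorem pGh3_0 : CkP QGh2 (4, 0x13100d1916071505020f0b08)
    [4, 0, 0, 0, 0] 16 := by
  have h0 := ckP_zero QGh2 (4, 0x13100d1916071505020f0b08)
    [4, 0, 0, 0, 0]
  have h1 := ckP_step (k := 16) h0 kGh3_0c0 rfl
  exact h1

theorem pGh3_1 : CkP QGh2 (4, 0x13110c1917061405030e0b09)
    [2, 0, 0, 0, 0] 16 := by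
  have h0 := ckP_zero QGh2 (4, 0x13110c1917061405030e0b09)
    [2, 0, 0, 0, 0]
  have h1 := ckP_step (k := 16) h0 kGh3_1c0 rfl
  exact h1

theorem pGh3_2 : CkP QGh2 (4, 0x13100b191605011502010f08)
    [3, 2, 1, 0] 8 := by
  have h0 := ckP_zero QGh2 (4, 0x13100b191605011502010f08)
    [3, 2, 1, 0]
  have h1 := ckP_step (k := 8) h0 kGh3_2c0 rfl
  exact h1

theorem pGh3_3 : CkP QGh2 (4, 0x13110a191704011403010e09)
    [3, 2, 1, 0] 8 := by
  have h0 := ckP_zero QGh2 (4, 0x13110a191704011403010e09)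
    [3, 2, 1, 0]
  have h1 := ckP_step (k := 8) h0 kGh3_3c0 rfl
  exact h1

theorem pGh3_4 : CkP QGh2 (6, 0x19130c17100b251f06231c05201b03140f09)
    [3, 5, 0, 0, 0, 0, 0] 64 := by
  have h0 := ckP_zero QGh2 (6, 0x19130c17100b251f06231c05201b03140f09)
    [3, 5, 0, 0, 0, 0, 0]
  have h1 := ckP_step (k := 63) h0 kGh3_4c0 rfl
  have h2 := ckP_step (k := 64) h1 kGh3_4c1 rfl
  exact h2

theorem kGh3 : PpI QGh2 6 TGh3 CAGh CBGh 5 := by
  have h0 := ppI_zero QGh2 6 TGh3 CAGh CBGh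
  have h1 := ppI_stepV (k' := 1) (q := (4, 0x13100d1916071505020f0b08)) h0 rfl kGh3_0r pGh3_0 kGh3_0m rfl
  have h2 := ppI_stepV (k' := 2) (q := (4, 0x13110c1917061405030e0b09)) h1 rfl kGh3_1r pGh3_1 kGh3_1m rfl
  have h3 := ppI_stepV (k' := 3) (q := (4, 0x13100b191605011502010f08)) h2 rfl kGh3_2r pGh3_2 kGh3_2m rfl
  have h4 := ppI_stepV (k' := 4) (q := (4, 0x13110a191704011403010e09)) h3 rfl kGh3_3r pGh3_3 kGh3_3m rfl
  have h5 := ppI_stepV (k' := 5) (q := (6, 0x19130c17100b251f06231c05201b03140f09)) h4 rfl kGh3_4r pGh3_4 kGh3_4m rfl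
  exact h5

theorem zGh3 : (!false || allK QGh2 (fun _ => true) (nzq CBGh)
  0) = true := by decide +kernel

theorem mGh3A : (Nat.ble 2 1 || memI QGh2 2 1 257) = true := by decide +kernel

theorem mGh3B : (Nat.ble 1 1 || memI QGh2 0 1 1) = true := by decide +kernel

/-- **the phase 3** -/
theorem cGh3 : Dj CAGh CBGh false PLGh (dnL QGh3) :=
  Dj.rawP vokAGh vokBGh mclAGh mclBGh mkoGh wfpGh cGh2 mGh3A mGh3B (by norm_num) tGh3 kGh3 lenGh zGh3 bGh3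

end EF18.P78
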