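import Pool.Agent.Lib.MP_ef18bd_co.R78G.P4

/-!
# Phase 4: roots
-/

namespace EF18.P78

set_option linter.defProp false

def oGh4_0_0 : rGh4 0 10
  0x44403c3834302c2824201c1814100c08040097d140504c485c545868606474706c807c78100c1418201c04000830383440443c282c2494d230504c486860645c5458807c7874706c20181c0c101400040840443c3038342c282494d230746c70504c4880787c5c54586864600c1014282c2438303400040844403c18201c94d23080787c5c5854746c7050484c68646018201c2c282444403c0400083830340c101494d230807c7868646074706c504c485c585430383444403c2c2824100c1420181c00040894d230807c7874706c6864605c5854504c4840443c383034282c2420181c100c1404000894d230383430242c28201c1814100c080400a5511038343018201c2c282408040014100ca55118040149d04 = true := by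
  decide +kernel

end EF18.P78
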