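import Pool.Agent.Lib.MP_ef18bd_co.R78G.C3
import Pool.Agent.Lib.MP_ef18bd_co.R78G.P4x0
import Pool.Agent.Lib.MP_ef18bd_co.R78G.P4x1
import Pool.Agent.Lib.MP_ef18bd_co.R78G.P4j0
import Pool.Agent.Lib.MP_ef18bd_co.R78G.P4r0
import Pool.Agent.Lib.MP_ef18bd_co.R78G.P4k0

/-!
# Phase 4
-/

namespace EF18.P78

theorem aGh4 : ∀ i < 1320, Val (stD (dnL QGh3) SGh4) (prc BGh4 i) := by
  have j0 := ents_zeroF QGh3 SGh4 BGh4
  have j1 := ents_dnF (k := 100) j0 jGh4_0 rfl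
  have j2 := ents_dnF (k := 200) j1 jGh4_1 rfl
  have j3 := ents_dnF (k := 300) j2 jGh4_2 rfl
  have j4 := ents_dnF (k := 400) j3 jGh4_3 rfl
  have j5 := ents_dnF (k := 500) j4 jGh4_4 rfl
  have j6 := ents_dnF (k := 594) j5 jGh4_5 rfl
  have h0 := j6
  have h1 := wGh4_0_0 h0
  have h2 := wGh4_0_1 h1
  have h3 := wGh4_0_2 h2
  have h4 := wGh4_0_3 h3
  have h5 := wGh4_0_4 h4
  have h6 := wGh4_0_5 h5
  have h7 := wGh4_0_6 h6
  have h8 := wGh4_0_7 h7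
  have h9 := wGh4_0_8 h8
  have h10 := wGh4_0_9 h9
  have h11 := wGh4_0_10 h10
  have h12 := wGh4_0_11 h11
  have h13 := wGh4_0_12 h12
  have h14 := wGh4_0_13 h13
  have h15 := wGh4_0_14 h14
  have h16 := wGh4_0_15 h15
  have h17 := wGh4_0_16 h16
  have h18 := wGh4_0_17 h17
  have h19 := wGh4_0_18 h18
  have h20 := wGh4_1_0 h19
  have h21 := wGh4_1_1 h20
  have h22 := wGh4_1_2 h21
  have h23 := wGh4_1_3 h22
  have h24 := wGh4_1_4 h23
  have h25 := wGh4_1_5 h24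
  have h26 := wGh4_1_6 h25
  have h27 := wGh4_1_7 h26
  have h28 := wGh4_1_8 h27
  have h29 := wGh4_1_9 h28
  have h30 := wGh4_1_10 h29
  exact h30

theorem bGh4 : RtI (okB 1 false) (stD (dnL QGh3) SGh4) RBGh4 10 := by
  have h0 := rtI_zero (okB 1 false) (stD (dnL QGh3) SGh4) RBGh4
  have h1 := uGh4 aGh4 h0 oGh4_0_0 (show 0 + 10 = 10 from rfl)
  exact h1

theorem tGh4 : (TGh4.all okJ) = true := by decide +kernel

theorem pGh4_0 : CkP QGh3 (4, 0x13100d1916071505020f0b08)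
    [2, 0, 0, 0, 0] 16 := by
  have h0 := ckP_zero QGh3 (4, 0x13100d1916071505020f0b08)
    [2, 0, 0, 0, 0]
  have h1 := ckP_step (k := 16) h0 kGh4_0c0 rfl
  exact h1

theorem pGh4_1 : CkP QGh3 (4, 0x13110c1917061405030e0b09)
    [2, 0, 0, 0, 0] 16 := by
  have h0 := ckP_zero QGh3 (4, 0x13110c1917061405030e0b09)
    [2, 0, 0, 0, 0]
  have h1 := ckP_step (k := 16) h0 kGh4_1c0 rfl
  exact h1

theorem pGh4_2 : CkP QGh3 (4, 0x13100b191605011502010f08)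
    [3, 2, 1, 0] 8 := by
  have h0 := ckP_zero QGh3 (4, 0x13100b191605011502010f08)
    [3, 2, 1, 0]
  have h1 := ckP_step (k := 8) h0 kGh4_2c0 rfl
  exact h1

theorem pGh4_3 : CkP QGh3 (4, 0x13110a191704011403010e09)
    [3, 2, 1, 0] 8 := by
  have h0 := ckP_zero QGh3 (4, 0x13110a191704011403010e09)
    [3, 2, 1, 0]
  have h1 := ckP_step (k := 8) h0 kGh4_3c0 rfl
  exact h1

theorem pGh4_4 : CkP QGh3 (6, 0x19130c17100b251f06231c05201b03140f09)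
    [3, 2, 0, 0, 0, 0, 0] 64 := by
  have h0 := ckP_zero QGh3 (6, 0x19130c17100b251f06231c05201b03140f09)
    [3, 2, 0, 0, 0, 0, 0]
  have h1 := ckP_step (k := 47) h0 kGh4_4c0 rfl
  have h2 := ckP_step (k := 59) h1 kGh4_4c1 rfl
  have h3 := ckP_step (k := 62) h2 kGh4_4c2 rfl
  have h4 := ckP_step (k := 63) h3 kGh4_4c3 rfl
  have h5 := ckP_step (k := 64) h4 kGh4_4c4 rfl
  exact h5

theorem kGh4 : PpI QGh3 6 TGh4 CAGh CBGh 5 := by
  have h0 := ppI_zero QGh3 6 TGh4 CAGh CBGh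
  have h1 := ppI_stepV (k' := 1) (q := (4, 0x13100d1916071505020f0b08)) h0 rfl kGh4_0r pGh4_0 kGh4_0m rfl
  have h2 := ppI_stepV (k' := 2) (q := (4, 0x13110c1917061405030e0b09)) h1 rfl kGh4_1r pGh4_1 kGh4_1m rfl
  have h3 := ppI_stepV (k' := 3) (q := (4, 0x13100b191605011502010f08)) h2 rfl kGh4_2r pGh4_2 kGh4_2m rfl
  have h4 := ppI_stepV (k' := 4) (q := (4, 0x13110a191704011403010e09)) h3 rfl kGh4_3r pGh4_3 kGh4_3m rfl
  have h5 := ppI_stepV (k' := 5) (q := (6, 0x19130c17100b251f06231c05201b03140f09)) h4 rfl kGh4_4r pGh4_4 kGh4_4m rfl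
  exact h5

theorem zGh4 : (!false || allK QGh3 (fun _ => true) (nzq CBGh)
  0) = true := by decide +kernel

theorem mGh4A : (Nat.ble 2 1 || memI QGh3 3 1 257) = true := by decide +kernel

theorem mGh4B : (Nat.ble 1 1 || memI QGh3 0 1 1) = true := by decide +kernel

/-- **the phase 4** -/
theorem cGh4 : Dj CAGh CBGh false PLGh (dnL QGh4) :=
  Dj.rawP vokAGh vokBGh mclAGh mclBGh mkoGh wfpGh cGh3 mGh4A mGh4B (by norm_num) tGh4 kGh4 lenGh zGh4 bGh4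

end EF18.P78
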