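import Pool.Agent.Lib.MP_ef18bd_co.R78G.P5

/-!
# Phase 5: closed patterns
-/

namespace EF18.P78

set_option linter.defProp false

def jGh5_0 : j0F QGh4 BGh5 16 0
  0x40000002000cc30004830003830002030001830001430000030033c200d64300c30300024000a003000084000044 = true := by
  decide +kernel

end EF18.P78
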