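import Pool.Agent.Lib.MP_ef18bd_co.R78G.P5

/-!
# Phase 5: entries
-/

namespace EF18.P78

set_option linter.defProp false

def vGh5_1_0_0 : gGh5 [(0x28009,
  0x70102000b0302000b0306070202000b030207020607020707020a07020607020207020507020507020407020207020a07020a070206070202070207070204070208070202000b0306070209070208070204070207010701070107010701070107010701030702030702030702030702030702030702030702030702070102000b0302000b0302000b0302000b0302000b030607020a07020a07020a0702020702050702c2400f0304070201850b030a07020a070206070206070208070204070202000b0302000b0309070202000b03080702070702030702030702030702030702030702030702030702030702070102000b0302000b0301070202000b0302000b0303070202000b030207020607020607020207020207020107020a07020a07020307020307020607020a07020307020207020207020207020c070207070207070203070205070204070202000b030307020207020607020207020107020a07020a07020307020a07020607020607020307020207020607020207020707020807020307020607020207020407020a07020307020407020207020807020b07020b070208070202000b03060702090702060702090702060702020702080702080702030702060702020702070702070702050702040702040702)] 648 = true := by decide +kernel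

def vGh5_1_0_1 : gGh5 [(0x706,
  0x70702050702070702070702)] 649 = true := by decide +kernel

def vGh5_1_0_2 : gGh5 [(0x3050a,
  0x3050b0303050b0303050b0303050b0303050b03)] 650 = true := by decide +kernel

def vGh5_1_0_3 : gGh5 [(0x405,
  0x507020507020807020701070107010307020307020307020507020507020807020307020307020307020207020207020307020507020701070107010701070107010701070107010701070105070207010507020701040702)] 651 = true := by decide +kernel

theorem wGh5_1_0 (h0 : ∀ i < 648, Val (stD (dnL QGh4) SGh5) (prc BGh5 i)) :
    ∀ i < 652, Val (stD (dnL QGh4) SGh5) (prc BGh5 i) := by
  have h1 := iGh5 (k := 649) h0 vGh5_1_0_0 rfl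
  have h2 := iGh5 (k := 650) h1 vGh5_1_0_1 rfl
  have h3 := iGh5 (k := 651) h2 vGh5_1_0_2 rfl
  have h4 := iGh5 (k := 652) h3 vGh5_1_0_3 rfl
  exact h4

end EF18.P78
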