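import Pool.Agent.Lib.MP_ef18bd_co.R78G.C4
import Pool.Agent.Lib.MP_ef18bd_co.R78G.P5x0
import Pool.Agent.Lib.MP_ef18bd_co.R78G.P5x1
import Pool.Agent.Lib.MP_ef18bd_co.R78G.P5j0
import Pool.Agent.Lib.MP_ef18bd_co.R78G.P5r0
import Pool.Agent.Lib.MP_ef18bd_co.R78G.P5k0

/-!
# Phase 5
-/

namespace EF18.P78

theorem aGh5 : ∀ i < 652, Val (stD (dnL QGh4) SGh5) (prc BGh5 i) := by
  have j0 := ents_zeroF QGh4 SGh5 BGh5
  have j1 := ents_dnF (k := 16) j0 jGh5_0 rfl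
  have h0 := j1
  have h1 := wGh5_0_0 h0
  have h2 := wGh5_0_1 h1
  have h3 := wGh5_0_2 h2
  have h4 := wGh5_0_3 h3
  have h5 := wGh5_0_4 h4
  have h6 := wGh5_0_5 h5
  have h7 := wGh5_0_6 h6
  have h8 := wGh5_0_7 h7
  have h9 := wGh5_0_8 h8
  have h10 := wGh5_0_9 h9
  have h11 := wGh5_0_10 h10
  have h12 := wGh5_0_11 h11
  have h13 := wGh5_0_12 h12
  have h14 := wGh5_0_13 h13
  have h15 := wGh5_0_14 h14
  have h16 := wGh5_0_15 h15
  have h17 := wGh5_0_16 h16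
  have h18 := wGh5_0_17 h17
  have h19 := wGh5_0_18 h18
  have h20 := wGh5_0_19 h19
  have h21 := wGh5_0_20 h20
  have h22 := wGh5_0_21 h21
  have h23 := wGh5_0_22 h22
  have h24 := wGh5_0_23 h23
  have h25 := wGh5_0_24 h24
  have h26 := wGh5_0_25 h25
  have h27 := wGh5_1_0 h26
  exact h27

theorem bGh5 : RtI (okB 0 false) (stD (dnL QGh4) SGh5) RBGh5 211 := by
  have h0 := rtI_zero (okB 0 false) (stD (dnL QGh4) SGh5) RBGh5
  have h1 := uGh5 aGh5 h0 oGh5_0_0 (show 0 + 25 = 25 from rfl)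
  have h2 := uGh5 aGh5 h1 oGh5_0_1 (show 25 + 25 = 50 from rfl)
  have h3 := uGh5 aGh5 h2 oGh5_0_2 (show 50 + 25 = 75 from rfl)
  have h4 := uGh5 aGh5 h3 oGh5_0_3 (show 75 + 25 = 100 from rfl)
  have h5 := uGh5 aGh5 h4 oGh5_0_4 (show 100 + 25 = 125 from rfl)
  have h6 := uGh5 aGh5 h5 oGh5_0_5 (show 125 + 25 = 150 from rfl)
  have h7 := uGh5 aGh5 h6 oGh5_0_6 (show 150 + 25 = 175 from rfl)
  have h8 := uGh5 aGh5 h7 oGh5_0_7 (show 175 + 25 = 200 from rfl)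
  have h9 := uGh5 aGh5 h8 oGh5_0_8 (show 200 + 11 = 211 from rfl)
  exact h9

theorem tGh5 : (TGh5.all okJ) = true := by decide +kernel

theorem pGh5_0 : CkP QGh4 (4, 0x13100d1916071505020f0b08)
    [2, 0, 0, 0, 0] 16 := by
  have h0 := ckP_zero QGh4 (4, 0x13100d1916071505020f0b08)
    [2, 0, 0, 0, 0]
  have h1 := ckP_step (k := 16) h0 kGh5_0c0 rfl
  exact h1

theorem pGh5_1 : CkP QGh4 (4, 0x13110c1917061405030e0b09)
    [2, 0, 0, 0, 0] 16 := by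
  have h0 := ckP_zero QGh4 (4, 0x13110c1917061405030e0b09)
    [2, 0, 0, 0, 0]
  have h1 := ckP_step (k := 16) h0 kGh5_1c0 rfl
  exact h1

theorem pGh5_2 : CkP QGh4 (4, 0x13100b191605011502010f08)
    [3, 2, 1, 0] 8 := by
  have h0 := ckP_zero QGh4 (4, 0x13100b191605011502010f08)
    [3, 2, 1, 0]
  have h1 := ckP_step (k := 8) h0 kGh5_2c0 rfl
  exact h1

theorem pGh5_3 : CkP QGh4 (4, 0x13110a191704011403010e09)
    [3, 2, 1, 0] 8 := by
  have h0 := ckP_zero QGh4 (4, 0x13110a191704011403010e09)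
    [3, 2, 1, 0]
  have h1 := ckP_step (k := 8) h0 kGh5_3c0 rfl
  exact h1

theorem pGh5_4 : CkP QGh4 (6, 0x19130c17100b251f06231c05201b03140f09)
    [3, 0, 0, 0, 0, 0, 0] 64 := by
  have h0 := ckP_zero QGh4 (6, 0x19130c17100b251f06231c05201b03140f09)
    [3, 0, 0, 0, 0, 0, 0]
  have h1 := ckP_step (k := 63) h0 kGh5_4c0 rfl
  have h2 := ckP_step (k := 64) h1 kGh5_4c1 rfl
  exact h2

theorem kGh5 : PpI QGh4 6 TGh5 CAGh CBGh 5 := by
  have h0 := ppI_zero QGh4 6 TGh5 CAGh CBGh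
  have h1 := ppI_stepV (k' := 1) (q := (4, 0x13100d1916071505020f0b08)) h0 rfl kGh5_0r pGh5_0 kGh5_0m rfl
  have h2 := ppI_stepV (k' := 2) (q := (4, 0x13110c1917061405030e0b09)) h1 rfl kGh5_1r pGh5_1 kGh5_1m rfl
  have h3 := ppI_stepV (k' := 3) (q := (4, 0x13100b191605011502010f08)) h2 rfl kGh5_2r pGh5_2 kGh5_2m rfl
  have h4 := ppI_stepV (k' := 4) (q := (4, 0x13110a191704011403010e09)) h3 rfl kGh5_3r pGh5_3 kGh5_3m rfl
  have h5 := ppI_stepV (k' := 5) (q := (6, 0x19130c17100b251f06231c05201b03140f09)) h4 rfl kGh5_4r pGh5_4 kGh5_4m rfl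
  exact h5

theorem zGh5 : (!false || allK QGh4 (fun _ => true) (nzq CBGh)
  0) = true := by decide +kernel

theorem mGh5A : (Nat.ble 2 0 || memI QGh4 4 1 257) = true := by decide +kernel

theorem mGh5B : (Nat.ble 1 0 || memI QGh4 0 1 1) = true := by decide +kernel

/-- **the phase 5** -/
theorem cGh5 : Dj CAGh CBGh false PLGh (dnL QGh5) :=
  Dj.rawP vokAGh vokBGh mclAGh mclBGh mkoGh wfpGh cGh4 mGh5A mGh5B (by norm_num) tGh5 kGh5 lenGh zGh5 bGh5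

end EF18.P78
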