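import Pool.Agent.Lib.MP_ef18bd_co.R78G.P6

/-!
# Phase 6: closed patterns
-/

namespace EF18.P78

set_option linter.defProp false

def jGh6_0 : j0F QGh5 BGh6 100 0
  0x19c00019800019400019000018c00018800018400018000017c00017800017400017000016c00016800016400016000015c00015800015400015000014c00014800014400014000013c00013800013400013000012c00012800012400012000011c00011800011400011000010c0001080001040001000000fc0000f80000f40000f00000ec0000e80000e40000e00000dc0000d80000d40000d00000cc0000c80000c40000c00000bc0000b80000b40000b00000ac0000a80000a40000a000009c00009800009400009000008c00008800008400008000007c00007800007400007000006c00006800006400006000005c00005800005400005000004c00004800004400004000003c00003800003400003000000c10000410000840000440000040002410000c5000045 = true := by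
  decide +kernel

def jGh6_1 : j0F QGh5 BGh6 100 100
  0x32c00032800032400032000031c00031800031400031000030c0003080003040003000002fc0002f80002f40002f00002ec0002e80002e40002e00002dc0002d80002d40002d00002cc0002c80002c40002c00002bc0002b80002b40002b00002ac0002a80002a40002a000029c00029800029400029000028c00028800028400028000027c00027800027400027000026c00026800026400026000025c00025800025400025000024c00024800024400024000023c00023800023400023000022c00022800022400022000021c00021800021400021000020c0002080002040002000001fc0001f80001f40001f00001ec0001e80001e40001e00001dc0001d80001d40001d00001cc0001c80001c40001c00001bc0001b80001b40001b00001ac0001a80001a40001a00 = true := by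
  decide +kernel

def jGh6_2 : j0F QGh5 BGh6 16 200
  0x2c00002000001c00001800001400000c00000800000400000000034800034400034000033c0003380003340003300 = true := by
  decide +kernel

end EF18.P78
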