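import Pool.Agent.Lib.MP_ef18bd_co.R78G.P6

/-!
# Phase 6: roots
-/

namespace EF18.P78

set_option linter.defProp false

def oGh6_0_0 : rGh6 0 1
  0x14100c08040161108 = true := by
  decide +kernel

end EF18.P78
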