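import Pool.Agent.Lib.MP_ef18bd_co.R78G.C5
import Pool.Agent.Lib.MP_ef18bd_co.R78G.P6x0
import Pool.Agent.Lib.MP_ef18bd_co.R78G.P6x1
import Pool.Agent.Lib.MP_ef18bd_co.R78G.P6x2
import Pool.Agent.Lib.MP_ef18bd_co.R78G.P6j0
import Pool.Agent.Lib.MP_ef18bd_co.R78G.P6r0
import Pool.Agent.Lib.MP_ef18bd_co.R78G.P6k0

/-!
# Phase 6
-/

namespace EF18.P78

theorem aGh6 : ∀ i < 1413, Val (stD (dnL QGh5) SGh6) (prc BGh6 i) := by
  have j0 := ents_zeroF QGh5 SGh6 BGh6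
  have j1 := ents_dnF (k := 100) j0 jGh6_0 rfl
  have j2 := ents_dnF (k := 200) j1 jGh6_1 rfl
  have j3 := ents_dnF (k := 216) j2 jGh6_2 rfl
  have h0 := j3
  have h1 := wGh6_0_0 h0
  have h2 := wGh6_0_1 h1
  have h3 := wGh6_0_2 h2
  have h4 := wGh6_0_3 h3
  have h5 := wGh6_0_4 h4
  have h6 := wGh6_0_5 h5
  have h7 := wGh6_0_6 h6
  have h8 := wGh6_0_7 h7
  have h9 := wGh6_0_8 h8
  have h10 := wGh6_0_9 h9
  have h11 := wGh6_0_10 h10
  have h12 := wGh6_0_11 h11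
  have h13 := wGh6_0_12 h12
  have h14 := wGh6_0_13 h13
  have h15 := wGh6_0_14 h14
  have h16 := wGh6_0_15 h15
  have h17 := wGh6_0_16 h16
  have h18 := wGh6_0_17 h17
  have h19 := wGh6_0_18 h18
  have h20 := wGh6_0_19 h19
  have h21 := wGh6_0_20 h20
  have h22 := wGh6_1_0 h21
  have h23 := wGh6_1_1 h22
  have h24 := wGh6_1_2 h23
  have h25 := wGh6_1_3 h24
  have h26 := wGh6_1_4 h25
  have h27 := wGh6_1_5 h26
  have h28 := wGh6_1_6 h27
  have h29 := wGh6_1_7 h28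
  have h30 := wGh6_1_8 h29
  have h31 := wGh6_1_9 h30
  have h32 := wGh6_1_10 h31
  have h33 := wGh6_1_11 h32
  have h34 := wGh6_1_12 h33
  have h35 := wGh6_1_13 h34
  have h36 := wGh6_1_14 h35
  have h37 := wGh6_1_15 h36
  have h38 := wGh6_1_16 h37
  have h39 := wGh6_1_17 h38
  have h40 := wGh6_1_18 h39
  have h41 := wGh6_2_0 h40
  have h42 := wGh6_2_1 h41
  have h43 := wGh6_2_2 h42
  have h44 := wGh6_2_3 h43
  have h45 := wGh6_2_4 h44
  have h46 := wGh6_2_5 h45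
  have h47 := wGh6_2_6 h46
  have h48 := wGh6_2_7 h47
  have h49 := wGh6_2_8 h48
  exact h49

theorem bGh6 : RtI (okB 0 false) (stD (dnL QGh5) SGh6) RBGh6 1 := by
  have h0 := rtI_zero (okB 0 false) (stD (dnL QGh5) SGh6) RBGh6
  have h1 := uGh6 aGh6 h0 oGh6_0_0 (show 0 + 1 = 1 from rfl)
  exact h1

theorem tGh6 : (TGh6.all okJ) = true := by decide +kernel

theorem pGh6_0 : CkP QGh5 (4, 0x13100d1916071505020f0b08)
    [2, 0, 0, 0, 0] 16 := by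
  have h0 := ckP_zero QGh5 (4, 0x13100d1916071505020f0b08)
    [2, 0, 0, 0, 0]
  have h1 := ckP_step (k := 16) h0 kGh6_0c0 rfl
  exact h1

theorem pGh6_1 : CkP QGh5 (4, 0x13110c1917061405030e0b09)
    [2, 0, 0, 0, 0] 16 := by
  have h0 := ckP_zero QGh5 (4, 0x13110c1917061405030e0b09)
    [2, 0, 0, 0, 0]
  have h1 := ckP_step (k := 16) h0 kGh6_1c0 rfl
  exact h1

theorem pGh6_2 : CkP QGh5 (4, 0x13100b191605011502010f08)
    [3, 0, 0, 0] 8 := by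
  have h0 := ckP_zero QGh5 (4, 0x13100b191605011502010f08)
    [3, 0, 0, 0]
  have h1 := ckP_step (k := 8) h0 kGh6_2c0 rfl
  exact h1

theorem pGh6_3 : CkP QGh5 (4, 0x13110a191704011403010e09)
    [3, 0, 0, 0] 8 := by
  have h0 := ckP_zero QGh5 (4, 0x13110a191704011403010e09)
    [3, 0, 0, 0]
  have h1 := ckP_step (k := 8) h0 kGh6_3c0 rfl
  exact h1

theorem pGh6_4 : CkP QGh5 (6, 0x19130c17100b251f06231c05201b03140f09)
    [3, 0, 0, 0, 0, 0, 0] 64 := by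
  have h0 := ckP_zero QGh5 (6, 0x19130c17100b251f06231c05201b03140f09)
    [3, 0, 0, 0, 0, 0, 0]
  have h1 := ckP_step (k := 63) h0 kGh6_4c0 rfl
  have h2 := ckP_step (k := 64) h1 kGh6_4c1 rfl
  exact h2

theorem kGh6 : PpI QGh5 6 TGh6 CAGh CBGh 5 := by
  have h0 := ppI_zero QGh5 6 TGh6 CAGh CBGh
  have h1 := ppI_stepV (k' := 1) (q := (4, 0x13100d1916071505020f0b08)) h0 rfl kGh6_0r pGh6_0 kGh6_0m rfl
  have h2 := ppI_stepV (k' := 2) (q := (4, 0x13110c1917061405030e0b09)) h1 rfl kGh6_1r pGh6_1 kGh6_1m rfl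
  have h3 := ppI_stepV (k' := 3) (q := (4, 0x13100b191605011502010f08)) h2 rfl kGh6_2r pGh6_2 kGh6_2m rfl
  have h4 := ppI_stepV (k' := 4) (q := (4, 0x13110a191704011403010e09)) h3 rfl kGh6_3r pGh6_3 kGh6_3m rfl
  have h5 := ppI_stepV (k' := 5) (q := (6, 0x19130c17100b251f06231c05201b03140f09)) h4 rfl kGh6_4r pGh6_4 kGh6_4m rfl
  exact h5

theorem zGh6 : (!true || allK QGh5 (fun _ => true) (nzq CBGh)
  0x140000000) = true := by decide +kernel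

theorem mGh6A : (Nat.ble 2 0 || memI QGh5 5 1 257) = true := by decide +kernel

theorem mGh6B : (Nat.ble 1 0 || memI QGh5 1 1 1) = true := by decide +kernel

/-- **the phase 6** -/
theorem cGh6 : Dj CAGh CBGh false PLGh (dnL QGh6) :=
  Dj.rawP vokAGh vokBGh mclAGh mclBGh mkoGh wfpGh cGh5 mGh6A mGh6B (by norm_num) tGh6 kGh6 lenGh zGh6 bGh6

end EF18.P78
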