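import Pool.Agent.Lib.MP_ef18bd_co.R78G.C6
import Pool.Agent.Lib.MP_ef18bd_co.R78.JntS

/-!
# The chain is complete
-/

namespace EF18.P78

theorem f13Gh : f13 CAGh = true := by decide +kernel

theorem yGhA : memI QGh6 2 1 1 = true := by decide +kernel

theorem yGhB : memI QGh6 0 2 (9 + 3 * 256 ^ 3) = true := by decide +kernel

/-- **the chain** -/
theorem chainGh : Chj false :=
  ⟨CAGh, CBGh, dnL QGh6, f13Gh, cGh6, memI_of yGhA, memI_of yGhB⟩

end EF18.P78
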